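import Pool.Agent.MWLE.StmtsB

/-!
# Row GDB of MWLE (helper66): class b, the insertion of `y`
-/

set_option autoImplicit false

namespace Pool.Agent.MWLE.H66

open Pool.Agent.Helper14_MV Pool.Agent.Helper2_MV Pool.Agent.MWLE
open Pool.Agent.MWK (pre Gw)
open Pool.Agent.MWGN (nn)

/-- the part in front of the second `1` -/
def Gm (m : ℕ) (g : Bool) : List ℕ := N0 m ++ 0 :: con (m + 1) ::
  (if g then [con (m + 1)] else [con (m + 1), pin (m + 1)])

/-- the rest -/
def Rs (m : ℕ) (g : Bool) : List ℕ :=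
  (if g then [pin (m + 1), 1] else []) ++ ((cp (m + 2) m ++ [pin (2 * m + 2)]) ++ [0])

theorem wb_eq (m : ℕ) (g : Bool) : wb m false g = Gm m g ++ 1 :: Rs m g := by
  unfold wb Nx Gm Rs
  cases g
  · simp only [Bool.false_eq_true, if_false, List.append_assoc, List.cons_append,
      List.nil_append]
  · simp only [if_true, List.append_assoc, List.cons_append, List.nil_append,
      Bool.false_eq_true, if_false]

theorem nn_le {W : List ℕ} {c a b : ℕ} (h : a ∈ pre W b) : nn W c a ≤ nn W c b := by
  obtain ⟨C, hC⟩ := MWK.pre_mono h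
  unfold nn
  rw [hC, List.count_append]
  exact Nat.le_add_right _ _

/-- **GDB** -/
theorem gdb (hB : BlkStmt) (hC : CvaStmt) (hT : TcrStmt) : GdbStmt := by
  intro σ τ m hS g f p q hb c hc
  by_contra hcon
  rw [not_or, not_or] at hcon
  obtain ⟨h4, h1, hp⟩ := hcon
  obtain ⟨W, hW⟩ : ∃ W, W = p ++ ((wd σ m false g).flatMap f ++ q) := ⟨_, rfl⟩
  rw [← hW] at hb
  obtain ⟨b1, b2⟩ := hB σ τ m hS false g f p q W hW hb.fc
  have h1w : 1 ∈ wb m false g := by
    rw [wb_eq]
    exact List.mem_append_right _ List.mem_cons_self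
  have h1p : ∀ j, 1 ≠ pin j := by
    intro j
    unfold pin
    omega
  have hcW : c ∈ W := by
    rw [hW]
    refine List.mem_append_right _ (List.mem_append_left _ (List.mem_flatMap.2 ⟨1, ?_, hc⟩))
    unfold wd
    exact List.mem_append_left _ h1w
  have hc0 : c = 0 := by
    rcases hb.fc.al c hcW with h | h | h | ⟨k, hk, h | h⟩
    · exact h
    · exact absurd h h1
    · exact absurd h h4
    · exfalso
      rw [h] at hp hc
      exact ((b2 (pin k) hp (by rw [hb.fc.pt k hk])) k hk).2 1 h1w h1p hc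
    · exfalso
      rw [h] at hc
      exact b1 1 h1w k hk hc
  rw [hc0] at hc hp
  have b3 := b2 0 hp (by
    have := hb.x2
    rw [hb.xt]
    omega)
  have pinp : pin (m + 1) ∉ p := by
    intro h
    have h5 := hb.xp
    unfold nn at h5
    rw [hW, MWK.pre_append_mem h] at h5
    have h6 : 0 ∈ pre p (pin (m + 1)) := List.count_pos_iff.1 (by omega)
    exact hp ((MWK.pre_prefix p _).subset h6)
  have pinp' : ∀ k, m + 1 ≤ k → k ≤ 2 * m + 2 → pin k ∉ p := by
    intro k hk1 hk2 h
    rcases Nat.eq_or_lt_of_le hk1 with h5 | h5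
    · rw [← h5] at h
      exact pinp h
    · have h6 := hb.fc.po (m + 1) k h5 hk2
      rw [hW, MWK.pre_append_mem h] at h6
      exact pinp ((MWK.pre_prefix p _).subset h6)
  have hG : ∀ k, m + 1 ≤ k → k ≤ 2 * m + 2 → pin k ∈ (Gm m g).flatMap f := by
    intro k hk1 hk2
    by_contra hn
    have h5 : pin k ∉ f 1 := (b3 k hk2).2 1 h1w h1p
    have e1 : W = (p ++ ((Gm m g).flatMap f ++ f 1)) ++ ((Rs m g ++ tl σ).flatMap f ++ q) := by
      rw [hW]
      unfold wd
      rw [wb_eq]
      simp only [List.append_assoc, List.cons_append, List.flatMap_append, List.flatMap_cons]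
    have h6 : pin k ∉ p ++ ((Gm m g).flatMap f ++ f 1) := by
      intro h
      rcases List.mem_append.1 h with h | h
      · exact pinp' k hk1 hk2 h
      · rcases List.mem_append.1 h with h | h
        · exact hn h
        · exact h5 h
    have h7 : 2 ≤ nn W 0 (pin k) := by
      unfold nn
      rw [e1, MWK.pre_append h6]
      have h8 : 0 ∈ (Gm m g).flatMap f := by
        refine List.mem_flatMap.2 ⟨1, ?_, hc⟩
        unfold Gm N0
        exact List.mem_append_left _ List.mem_cons_self
      have h9 := List.count_pos_iff.2 h8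
      have h10 := List.count_pos_iff.2 hc
      simp only [List.count_append]
      omega
    have h11 : nn W 0 (pin k) ≤ nn W 0 (pin (2 * m + 2)) := by
      rcases Nat.eq_or_lt_of_le hk2 with h | h
      · rw [h]
      · exact nn_le (hb.fc.po k (2 * m + 2) h le_rfl)
    have := hb.xl
    omega
  obtain ⟨_, g1, g2⟩ := hC σ τ m hS g f p q W hW hb.fc (fun k hk => (b3 k hk).1)
    (fun a ha hj k hk => (b3 k hk).2 a ha hj) pinp' hG
  exact hT σ τ m hS false g f p q W hW hb.fc 1 0 (m + 1) (m + 2) (by omega) (by omega) (by omega)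
    (by omega) (Or.inr hS.o1) hS.o2 g2 g1

end Pool.Agent.MWLE.H66
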